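import Pool.Agent.H.MP_62749c_al.Tree

set_option maxHeartbeats 400000

namespace Pool.Agent.H.MP_62749c_al

open Subgroup
open scoped commutatorElement

section Grp
variable {G : Type*} [Group G]

theorem sub_fg_comm {G : Type*} [CommGroup G] [Group.FG G] (K : Subgroup G) : K.FG := by
  haveI : Module.Finite ℤ (Additive G) := Module.Finite.iff_addGroup_fg.mpr inferInstance
  rw [Subgroup.fg_iff_add_fg]
  have := IsNoetherian.noetherian (R := ℤ) (AddSubgroup.toIntSubmodule K.toAddSubgroup)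
  exact (Submodule.fg_iff_addSubgroup_fg _).mp this

theorem sub_fg_of_comm {B K : Subgroup G} (hB : B.FG) (hc : ∀ x ∈ B, ∀ y ∈ B, x * y = y * x)
    (hK : K ≤ B) : K.FG := by
  letI : CommGroup B := { (inferInstance : Group B) with
    mul_comm := fun x y => Subtype.ext (hc x x.2 y y.2) }
  haveI : Group.FG B := (Group.fg_iff_subgroup_fg B).mpr hB
  obtain ⟨S, hS, hSf⟩ := (Subgroup.fg_iff _).mp (sub_fg_comm (K.subgroupOf B))
  refine (Subgroup.fg_iff _).mpr ⟨B.subtype '' S, ?_, hSf.image _⟩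
  rw [← MonoidHom.map_closure, hS, subgroupOf_map_subtype, inf_eq_left.mpr hK]

theorem central_fg (Q0 : Subgroup G) [Q0.FiniteIndex] {X : Set G} (hX : X.Finite)
    (hc : ∀ x ∈ X, ∀ y ∈ Q0, x * y = y * x) : (normalClosure X).FG := by
  rw [Subgroup.fg_iff]
  refine ⟨Group.conjugatesOfSet X, rfl, ?_⟩
  have hfin : (Set.range (Quotient.out : G ⧸ Q0 → G)).Finite :=
    @Set.finite_range _ (G ⧸ Q0) _ inferInstance
  refine ((hfin.prod hX).image (fun p : G × G => p.1 * p.2 * p.1⁻¹)).subset ?_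
  intro z hz
  obtain ⟨x, hx, hz⟩ := Group.mem_conjugatesOfSet_iff.mp hz
  obtain ⟨g, rfl⟩ := isConj_iff.mp hz
  refine ⟨((g : G ⧸ Q0).out, x), ⟨⟨_, rfl⟩, hx⟩, ?_⟩
  obtain ⟨y, hy⟩ := QuotientGroup.mk_out_eq_mul Q0 g
  simp only [hy]
  have := hc x hx y y.2
  calc g * y * x * (g * y)⁻¹ = g * (y * x) * (y : G)⁻¹ * g⁻¹ := by group
    _ = g * (x * y) * (y : G)⁻¹ * g⁻¹ := by rw [this]
    _ = _ := by group

/-- elements whose commutators with `P` lie in `M` -/
def Cz (P M : Subgroup G) [P.Normal] [M.Normal] : Subgroup G where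
  carrier := {g | ∀ y ∈ P, ⁅g, y⁆ ∈ M}
  one_mem' := by simp
  mul_mem' {a b} ha hb y hy := by
    have : ⁅a * b, y⁆ = a * ⁅b, y⁆ * a⁻¹ * ⁅a, y⁆ := by simp only [commutatorElement_def]; group
    rw [this]
    exact mul_mem (Normal.conj_mem ‹_› _ (hb y hy) a) (ha y hy)
  inv_mem' {a} ha y hy := by
    have : ⁅a⁻¹, y⁆ = a⁻¹ * ⁅a, y⁆⁻¹ * a⁻¹⁻¹ := by simp only [commutatorElement_def]; group
    rw [this]
    exact Normal.conj_mem ‹_› _ (inv_mem (ha y hy)) _

instance (P M : Subgroup G) [hP : P.Normal] [hM : M.Normal] : (Cz P M).Normal where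
  conj_mem a ha g y hy := by
    have : ⁅g * a * g⁻¹, y⁆ = g * ⁅a, g⁻¹ * y * g⁻¹⁻¹⁆ * g⁻¹ := by
      simp only [commutatorElement_def]; group
    rw [this]
    exact hM.conj_mem _ (ha _ (hP.conj_mem _ hy _)) _

/-- elements whose commutator with `a` lies in `M` -/
def Cy (a : G) (M : Subgroup G) [M.Normal] : Subgroup G where
  carrier := {y | ⁅a, y⁆ ∈ M}
  one_mem' := by simp
  mul_mem' {x y} hx hy := by
    have : ⁅a, x * y⁆ = ⁅a, x⁆ * (x * ⁅a, y⁆ * x⁻¹) := by simp only [commutatorElement_def]; group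
    show _ ∈ M
    rw [this]
    exact mul_mem hx (Normal.conj_mem ‹_› _ hy x)
  inv_mem' {x} hx := by
    have : ⁅a, x⁻¹⁆ = x⁻¹ * ⁅a, x⁆⁻¹ * x⁻¹⁻¹ := by simp only [commutatorElement_def]; group
    show _ ∈ M
    rw [this]
    exact Normal.conj_mem ‹_› _ (inv_mem hx) _

theorem core0 (P M M' : Subgroup G) [P.Normal] [P.FiniteIndex] (hP : P.FG)
    (h1 : M' ≤ P) (h2 : ⁅M', P⁆ ≤ M) (h3 : M'.IsFinitelyNormallyGenerated) :
    ∃ Z : Set G, Z.Finite ∧ Z ⊆ M ∧ ∀ K : Subgroup G, K ≤ M' →
      ∃ W : Set G, W.Finite ∧ W ⊆ K ∧ K ≤ closure W ⊔ normalClosure Z := by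
  obtain ⟨X, hX, rfl⟩ := h3
  obtain ⟨Y, hY, hYf⟩ := (Subgroup.fg_iff _).mp hP
  set Z : Set G := (fun p : G × G => ⁅p.1, p.2⁆) '' (X ×ˢ Y) with hZ
  refine ⟨Z, (hX.prod hYf).image _, ?_, fun K hK => ?_⟩
  · rintro _ ⟨⟨x, y⟩, ⟨hx, hy⟩, rfl⟩
    exact h2 (commutator_mem_commutator (subset_normalClosure hx) (hY ▸ subset_closure hy))
  have hC : normalClosure X ≤ Cz P (normalClosure Z) := by
    refine normalClosure_le_normal fun x hx y hy => ?_
    have : closure Y ≤ Cy x (normalClosure Z) := by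
      rw [closure_le]
      exact fun y hy => subset_normalClosure ⟨(x, y), ⟨hx, hy⟩, rfl⟩
    exact this (hY ▸ hy)
  let π := QuotientGroup.mk' (normalClosure Z)
  have hπ : Function.Surjective π := QuotientGroup.mk'_surjective _
  have hcomm : ∀ x ∈ normalClosure X, ∀ y ∈ P, π x * π y = π y * π x := by
    intro x hx y hy
    have := (QuotientGroup.eq_one_iff _).mpr (hC hx y hy)
    rw [← commutatorElement_eq_one_iff_mul_comm, ← map_commutatorElement]
    exact this
  haveI : (P.map π).FiniteIndex := ⟨fun h => FiniteIndex.index_ne_zero (H := P)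
    (Nat.eq_zero_of_zero_dvd (h ▸ index_map_dvd P hπ))⟩
  have hB : (normalClosure (π '' X)).FG := by
    refine central_fg (P.map π) (hX.image _) ?_
    rintro _ ⟨x, hx, rfl⟩ _ ⟨y, hy, rfl⟩
    exact hcomm x (subset_normalClosure hx) y hy
  rw [← map_normalClosure _ _ hπ] at hB
  have hKf : (K.map π).FG := by
    refine sub_fg_of_comm hB ?_ (map_mono hK)
    rintro _ ⟨x, hx, rfl⟩ _ ⟨y, hy, rfl⟩
    exact hcomm x hx y (h1 hy)
  obtain ⟨V, hV, hVf⟩ := (Subgroup.fg_iff _).mp hKf
  have hVK : V ⊆ π '' K := fun v hv => by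
    have : v ∈ K.map π := hV ▸ subset_closure hv
    exact this
  obtain ⟨W, hWK, hW, rfl⟩ := Set.Finite.exists_subset_finite_image_eq hVf hVK
  refine ⟨W, hW, hWK, ?_⟩
  have := le_comap_map π K
  rwa [← hV, ← MonoidHom.map_closure, comap_map_eq, QuotientGroup.ker_mk'] at this

theorem core1 (P M M' : Subgroup G) [P.Normal] [P.FiniteIndex] [M.Normal] (hP : P.FG)
    (h0 : M ≤ M') (h1 : M' ≤ P) (h2 : ⁅M', P⁆ ≤ M) (h3 : M'.IsFinitelyNormallyGenerated) :
    M.IsFinitelyNormallyGenerated := by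
  obtain ⟨Z, hZ, hZM, h⟩ := core0 P M M' hP h1 h2 h3
  obtain ⟨W, hW, hWM, h⟩ := h M h0
  refine ⟨W ∪ Z, hW.union hZ, le_antisymm (normalClosure_le_normal (Set.union_subset hWM hZM))
    (h.trans (sup_le ?_ (normalClosure_mono Set.subset_union_right)))⟩
  exact closure_le_normalClosure.trans (normalClosure_mono Set.subset_union_left)

theorem compact {Y : Set G} {x : G} (hx : x ∈ normalClosure Y) :
    ∃ Y' ⊆ Y, Y'.Finite ∧ x ∈ normalClosure Y' := by
  let D : Subgroup G :=
    { carrier := {x | ∃ Y' ⊆ Y, Y'.Finite ∧ x ∈ normalClosure Y'}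
      one_mem' := ⟨∅, Set.empty_subset _, Set.finite_empty, one_mem _⟩
      mul_mem' := by
        rintro a b ⟨A, hA, hA', ha⟩ ⟨B, hB, hB', hb⟩
        exact ⟨A ∪ B, Set.union_subset hA hB, hA'.union hB',
          mul_mem (normalClosure_mono Set.subset_union_left ha)
            (normalClosure_mono Set.subset_union_right hb)⟩
      inv_mem' := by
        rintro a ⟨A, hA, hA', ha⟩
        exact ⟨A, hA, hA', inv_mem ha⟩ }
  haveI : D.Normal := ⟨by
    rintro a ⟨A, hA, hA', ha⟩ g
    exact ⟨A, hA, hA', normalClosure_normal.conj_mem _ ha g⟩⟩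
  have : normalClosure Y ≤ D := normalClosure_le_normal fun y hy =>
    ⟨{y}, Set.singleton_subset_iff.mpr hy, Set.finite_singleton y, subset_normalClosure rfl⟩
  exact this hx

theorem compact' {Y : Set G} (h : (normalClosure Y).IsFinitelyNormallyGenerated) :
    ∃ Y' ⊆ Y, Y'.Finite ∧ normalClosure Y' = normalClosure Y := by
  obtain ⟨X, hX, hXY⟩ := h
  have : ∀ x ∈ X, ∃ Y' ⊆ Y, Y'.Finite ∧ x ∈ normalClosure Y' := fun x hx =>
    compact (hXY ▸ subset_normalClosure hx)
  choose! f hf using this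
  refine ⟨⋃ x ∈ X, f x, Set.iUnion₂_subset fun x hx => (hf x hx).1,
    hX.biUnion fun x hx => (hf x hx).2.1,
    le_antisymm (normalClosure_mono (Set.iUnion₂_subset fun x hx => (hf x hx).1)) ?_⟩
  rw [← hXY]
  exact normalClosure_le_normal fun x hx =>
    normalClosure_mono (Set.subset_biUnion_of_mem (u := f) hx) (hf x hx).2.2

end Grp

section Rel
variable {A Γ : Type*} [Group Γ]

theorem map_val {G H β : Type*} [Group G] [Group H] (f : G →* H) (ψ : β → G) (l : List β) :
    f (val ψ l) = val (fun b => f (ψ b)) l := by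
  induction l with
  | nil => simp
  | cons a l ih => simp [ih]

/-- positive word -/
def pos (u : List A) : FreeGroup A := val FreeGroup.of u

@[simp] theorem pos_append (u v : List A) : pos (u ++ v) = pos u * pos v := val_append _ _ _

@[simp] theorem lift_pos (φ : A → Γ) (u : List A) : FreeGroup.lift φ (pos u) = val φ u := by
  simp [pos, map_val]

/-- relators between positive words modulo `N` -/
def Rel (φ : A → Γ) (N : Subgroup Γ) : Set (FreeGroup A) :=
  {x | ∃ u v : List A, val φ u * (val φ v)⁻¹ ∈ N ∧ x = pos u * (pos v)⁻¹}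

/-- their normal closure -/
abbrev R (φ : A → Γ) (N : Subgroup Γ) : Subgroup (FreeGroup A) := normalClosure (Rel φ N)

theorem R_mono (φ : A → Γ) {N M : Subgroup Γ} (h : N ≤ M) : R φ N ≤ R φ M :=
  normalClosure_mono fun _ ⟨u, v, h1, h2⟩ => ⟨u, v, h h1, h2⟩

theorem R_le (φ : A → Γ) (N : Subgroup Γ) [N.Normal] : R φ N ≤ N.comap (FreeGroup.lift φ) := by
  refine normalClosure_le_normal ?_
  rintro _ ⟨u, v, h, rfl⟩
  simpa using h

theorem pos_pow (u : List A) (k : ℕ) : ∃ w, pos w = pos u ^ k := by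
  induction k with
  | zero => exact ⟨[], rfl⟩
  | succ k ih => obtain ⟨w, hw⟩ := ih; exact ⟨w ++ u, by rw [pos_append, hw, pow_succ]⟩

theorem gen_pos (P C : Subgroup (FreeGroup A)) [P.Normal] [P.FiniteIndex]
    (h : ∀ w, pos w ∈ P → pos w ∈ C) : P ≤ C := by
  obtain ⟨k, hk⟩ : ∃ k, P.index = k + 1 :=
    Nat.exists_eq_succ_of_ne_zero (FiniteIndex.index_ne_zero (H := P))
  have hpow : ∀ g : FreeGroup A, g ^ (k + 1) ∈ P := fun g => hk ▸ P.pow_index_mem g
  have key : ∀ g : FreeGroup A, ∃ c ∈ C ⊓ P, ∃ m, g = c * pos m := by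
    intro g
    have hg : g ∈ closure (Set.range (FreeGroup.of : A → FreeGroup A)) := by
      rw [FreeGroup.closure_range_of]; exact mem_top g
    induction hg using closure_induction_right with
    | one => exact ⟨1, one_mem _, [], by simp [pos]⟩
    | mul_right x _ y hy ih =>
      obtain ⟨a, rfl⟩ := hy
      obtain ⟨c, hc, m, rfl⟩ := ih
      exact ⟨c, hc, m ++ [a], by simp [pos, mul_assoc]⟩
    | mul_inv_cancel x _ y hy ih =>
      obtain ⟨a, rfl⟩ := hy
      obtain ⟨c, hc, m, rfl⟩ := ih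
      obtain ⟨w1, h1⟩ := pos_pow [a] (k + 1)
      obtain ⟨w2, h2⟩ := pos_pow [a] k
      obtain ⟨w3, h3⟩ := pos_pow m (k + 1)
      obtain ⟨w4, h4⟩ := pos_pow m k
      have ea : pos [a] = FreeGroup.of a := by simp [pos]
      rw [ea] at h1 h2
      have m1 : pos (m ++ w1 ++ w4) ∈ P := by
        have : pos (m ++ w1 ++ w4) = pos m * FreeGroup.of a ^ (k + 1) * (pos m)⁻¹ *
            pos m ^ (k + 1) := by
          rw [pos_append, pos_append, h1, h4, pow_succ' (pos m)]; group
        rw [this]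
        exact mul_mem (Normal.conj_mem ‹_› _ (hpow _) _) (hpow _)
      have m2 : pos w3 ∈ P := h3 ▸ hpow _
      refine ⟨c * (pos w3 * (pos (m ++ w1 ++ w4))⁻¹),
        mul_mem hc (mul_mem ⟨h _ m2, m2⟩ (inv_mem ⟨h _ m1, m1⟩)), m ++ w2, ?_⟩
      rw [pos_append, pos_append, pos_append, h1, h2, h3, h4, pow_succ' (pos m),
        pow_succ (FreeGroup.of a)]
      group
  intro g hg
  obtain ⟨c, hc, m, rfl⟩ := key g
  exact mul_mem hc.1 (h m ((P.mul_mem_cancel_left hc.2).mp hg))

theorem comm_step (φ : A → Γ) (N1 N2 Γ0 : Subgroup Γ) [Γ0.Normal] [Γ0.FiniteIndex]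
    (h : ⁅N1, Γ0⁆ ≤ N2) : ⁅R φ N1, Γ0.comap (FreeGroup.lift φ)⁆ ≤ R φ N2 := by
  set P := Γ0.comap (FreeGroup.lift φ) with hP
  haveI : P.FiniteIndex := ⟨by
    rw [hP, index_comap]
    exact (FiniteIndex.index_ne_zero (H := Γ0.subgroupOf (FreeGroup.lift φ).range))⟩
  obtain ⟨k, hk⟩ : ∃ k, P.index = k + 1 :=
    Nat.exists_eq_succ_of_ne_zero (FiniteIndex.index_ne_zero (H := P))
  have hpow : ∀ g : FreeGroup A, g ^ (k + 1) ∈ P := fun g => hk ▸ P.pow_index_mem g
  have : R φ N1 ≤ Cz P (R φ N2) := by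
    refine normalClosure_le_normal ?_
    rintro _ ⟨u, v, huv, rfl⟩
    have k1 : ∀ z, pos (v ++ z) ∈ P → pos (v ++ z) ∈ Cy (pos u * (pos v)⁻¹) (R φ N2) := by
      intro z hz
      refine subset_normalClosure ⟨u ++ z ++ v, v ++ z ++ u, ?_, ?_⟩
      · have h1 : val φ (v ++ z) ∈ Γ0 := by simpa [hP] using hz
        have h2 := h (commutator_mem_commutator huv h1)
        convert h2 using 1
        simp only [val_append, commutatorElement_def]; group
      · simp only [pos_append, commutatorElement_def]; group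
    obtain ⟨w, hw⟩ := pos_pow v k
    have k2 : pos (v ++ w) ∈ P := by rw [pos_append, hw, ← pow_succ']; exact hpow _
    refine gen_pos P (Cy (pos u * (pos v)⁻¹) (R φ N2)) fun t ht => ?_
    have k3 := k1 (w ++ t) (by rw [← List.append_assoc, pos_append]; exact mul_mem k2 ht)
    have := mul_mem (inv_mem (k1 w k2)) k3
    rwa [← List.append_assoc, pos_append (v ++ w), inv_mul_cancel_left] at this
  exact commutator_le.mpr fun g hg y hy => this hg y hy

theorem step_fng [Finite A] (φ : A → Γ) (N1 N2 Γ0 : Subgroup Γ) [Γ0.Normal] [Γ0.FiniteIndex]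
    [N1.Normal] (h0 : N2 ≤ N1) (h1 : N1 ≤ Γ0) (h : ⁅N1, Γ0⁆ ≤ N2)
    (h3 : (R φ N1).IsFinitelyNormallyGenerated) : (R φ N2).IsFinitelyNormallyGenerated := by
  set P := Γ0.comap (FreeGroup.lift φ) with hP
  haveI : P.FiniteIndex := ⟨by
    rw [hP, index_comap]
    exact (FiniteIndex.index_ne_zero (H := Γ0.subgroupOf (FreeGroup.lift φ).range))⟩
  exact core1 P _ _ ((Group.fg_iff_subgroup_fg P).mp inferInstance) (R_mono φ h0)
    ((R_le φ N1).trans (comap_mono h1)) (comm_step φ N1 N2 Γ0 h) h3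

/-- signed letters -/
def sg {G : Type*} [Group G] (f : A → G) (p : A × Bool) : G := cond p.2 (f p.1) (f p.1)⁻¹

/-- positive letters first -/
def Srt (l : List (A × Bool)) : Prop := l.Pairwise fun x y => x.2 = false → y.2 = false

theorem lift_sg (φ : A → Γ) (l : List (A × Bool)) :
    FreeGroup.lift φ (val (sg FreeGroup.of) l) = val (sg φ) l := by
  rw [map_val]
  congr 1
  funext ⟨a, b⟩
  cases b <;> simp [sg]

theorem srt_neg (l : List (A × Bool)) (h : ∀ x ∈ l, x.2 = false) :
    ∃ v, val (sg FreeGroup.of) l = (pos v)⁻¹ := by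
  induction l with
  | nil => exact ⟨[], by simp [pos]⟩
  | cons x l ih =>
    obtain ⟨v, hv⟩ := ih fun y hy => h y (List.mem_cons_of_mem _ hy)
    refine ⟨v ++ [x.1], ?_⟩
    have := h x List.mem_cons_self
    simp [hv, sg, this, pos]

theorem srt_val (l : List (A × Bool)) (h : Srt l) :
    ∃ u v, val (sg FreeGroup.of) l = pos u * (pos v)⁻¹ := by
  induction l with
  | nil => exact ⟨[], [], by simp [pos]⟩
  | cons x l ih =>
    rw [Srt, List.pairwise_cons] at h
    rcases x with ⟨a, _ | _⟩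
    · obtain ⟨v, hv⟩ := srt_neg ((a, false) :: l) (by
        intro y hy
        rcases List.mem_cons.mp hy with rfl | hy
        · rfl
        · exact h.1 y hy rfl)
      exact ⟨[], v, by rw [hv]; simp [pos]⟩
    · obtain ⟨u, v, huv⟩ := ih h.2
      exact ⟨a :: u, v, by simp [huv, sg, pos, mul_assoc]⟩

theorem val_srt (u v : List A) : ∃ l, Srt l ∧ val (sg FreeGroup.of) l = pos u * (pos v)⁻¹ := by
  induction u with
  | nil =>
    suffices h : ∃ l : List (A × Bool), (∀ x ∈ l, x.2 = false) ∧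
        val (sg FreeGroup.of) l = (pos v)⁻¹ by
      obtain ⟨l, h1, h2⟩ := h
      exact ⟨l, List.pairwise_of_forall_mem_list fun x _ y hy _ => h1 y hy, by simp [h2, pos]⟩
    induction v with
    | nil => exact ⟨[], by simp, by simp [pos]⟩
    | cons a v ih =>
      obtain ⟨l, h1, h2⟩ := ih
      refine ⟨l ++ [(a, false)], ?_, by simp [h2, pos, sg]⟩
      intro x hx
      rcases List.mem_append.mp hx with hx | hx
      · exact h1 x hx
      · rw [List.mem_singleton.mp hx]
  | cons a u ih =>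
    obtain ⟨l, h1, h2⟩ := ih
    exact ⟨(a, true) :: l, List.pairwise_cons.mpr ⟨fun _ _ h => by simp at h, h1⟩,
      by simp [h2, pos, sg, mul_assoc]⟩

theorem base_fng [Finite A] {ι : Type*} {τ : Γ → FreeGroup ι} (hτ : Coarse τ) (φ : A → Γ) :
    (R φ ⊥).IsFinitelyNormallyGenerated := by
  obtain ⟨N, hN⟩ := exists_pump hτ (sg φ)
  set X : Set (FreeGroup A) := val (sg FreeGroup.of) ''
    {l | l.length < N ∧ Srt l ∧ val (sg φ) l = 1} with hX
  refine ⟨X, ((List.finite_length_lt _ N).subset fun l hl => hl.1).image _, le_antisymm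
    (normalClosure_mono ?_) (normalClosure_le_normal ?_)⟩
  · rintro _ ⟨l, ⟨-, h1, h2⟩, rfl⟩
    obtain ⟨u, v, huv⟩ := srt_val l h1
    refine ⟨u, v, ?_, huv⟩
    rw [← lift_sg, huv] at h2
    simpa using h2
  let π := QuotientGroup.mk' (normalClosure X)
  let ψ : A × Bool → FreeGroup A ⧸ normalClosure X := fun b => π (sg FreeGroup.of b)
  have key : ∀ n (l : List (A × Bool)), l.length = n → Srt l → val (sg φ) l = 1 →
      val ψ l = 1 := by
    intro n
    induction n using Nat.strong_induction_on with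
    | _ n ih =>
      intro l hl h1 h2
      by_cases hn : l.length < N
      · rw [← map_val π]
        exact (QuotientGroup.eq_one_iff _).mpr (subset_normalClosure ⟨l, ⟨hn, h1, h2⟩, rfl⟩)
      obtain ⟨p, q, x, y, z, rfl, ⟨b1, d1, rfl, l1⟩, ⟨b2, d2, hy, l2⟩, e1, e2⟩ :=
        hN l h2 (not_lt.mp hn)
      have zy : z.Sublist y := by
        rw [hy]; exact (List.sublist_append_right _ _).trans (List.sublist_append_left _ _)
      have yx : y.Sublist (b1 ++ y ++ d1) :=
        (List.sublist_append_right _ _).trans (List.sublist_append_left _ _)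
      have f1 := ih _ (by simp at hl l1 ⊢; omega) (p ++ y ++ q) rfl
        (h1.sublist (((List.Sublist.refl p).append yx).append (List.Sublist.refl q)))
        (by rw [val_append, val_append, e1, ← val_append, ← val_append, h2])
      have f0 := ih _ (by simp at hl l1 ⊢; omega) (p ++ z ++ q) rfl
        (h1.sublist (((List.Sublist.refl p).append (zy.trans yx)).append (List.Sublist.refl q)))
        (by rw [val_append, val_append, e2, ← val_append, ← val_append, h2])
      have f2 := ih _ (by simp at hl l1 ⊢; omega) (p ++ (b1 ++ z ++ d1) ++ q) rfl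
        (h1.sublist (((List.Sublist.refl p).append (((List.Sublist.refl b1).append zy).append
          (List.Sublist.refl d1))).append (List.Sublist.refl q)))
        (by
          rw [← h2]
          simp only [val_append, e2.trans e1.symm])
      have : val ψ y = val ψ z := by
        have := f1.trans f0.symm
        simpa using this
      rw [← f2]
      simp only [val_append, this]
  rintro _ ⟨u, v, huv, rfl⟩
  obtain ⟨l, h1, h2⟩ := val_srt u v
  have h3 : val (sg φ) l = 1 := by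
    rw [← lift_sg, h2]; simpa using huv
  have := key _ l rfl h1 h3
  rw [← map_val π, h2] at this
  exact (QuotientGroup.eq_one_iff _).mp this

theorem R_quot {K : Type*} [Group K] (f : Γ →* K) (φ : A → Γ) :
    R (fun a => f (φ a)) ⊥ = R φ f.ker := by
  have : Rel (fun a => f (φ a)) ⊥ = Rel φ f.ker := by
    ext x
    simp only [Rel, Set.mem_setOf_eq, mem_bot, MonoidHom.mem_ker, map_mul, map_inv, map_val]
  rw [R, R, this]

theorem chain_fng [Finite A] (φ : A → Γ) (N Γ0 : Subgroup Γ) [Γ0.Normal] [Γ0.FiniteIndex]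
    [N.Normal] (h1 : N ≤ Γ0) (M : ℕ → Subgroup Γ) (hM : ∀ i, (M i).Normal) (h0 : M 0 = N)
    (ha : ∀ i, M (i + 1) ≤ M i) (hc : ∀ i, ⁅M i, Γ0⁆ ≤ M (i + 1))
    (h3 : (R φ N).IsFinitelyNormallyGenerated) (n : ℕ) :
    (R φ (M n)).IsFinitelyNormallyGenerated := by
  have hle : ∀ i, M i ≤ Γ0 := by
    intro i
    induction i with
    | zero => rw [h0]; exact h1
    | succ i ih => exact (ha i).trans ih
  induction n with
  | zero => rwa [h0]
  | succ n ih =>
    haveI := hM n
    exact step_fng φ (M n) (M (n + 1)) Γ0 (ha n) (hle n) (hc n) ih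

theorem lcs_normal {H : Type*} [Group H] (S : Subgroup H) [S.Normal] (n : ℕ) :
    (S.lowerCentralSeries n).Normal := by
  induction n with
  | zero => assumption
  | succ n ih => rw [Subgroup.lowerCentralSeries_succ]; infer_instance

theorem main_fng [Finite A] {F H : Type*} [Group F] [Group H] (F0 : Subgroup F) [F0.FiniteIndex]
    [IsFreeGroup F0] (H1 : Subgroup H) [H1.FiniteIndex] [Group.IsNilpotent H1]
    (φ : A → F × H) : (R φ ⊥).IsFinitelyNormallyGenerated := by
  set H0 := H1.normalCore with hH0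
  haveI : Group.IsNilpotent H0 :=
    nilpotent_of_mulEquiv (subgroupOfEquivOfLe (H1.normalCore_le))
  obtain ⟨c, hc⟩ := (isNilpotent_iff_lowerCentralSeries H0).mp inferInstance
  let f : F × H →* F × (H ⧸ H0) := (MonoidHom.id F).prodMap (QuotientGroup.mk' H0)
  have hker : f.ker = (⊥ : Subgroup F).prod H0 := by
    ext ⟨a, b⟩; simp [f, mem_prod]
  let K0 : Subgroup (F × (H ⧸ H0)) := F0.prod ⊥
  haveI : K0.FiniteIndex := ⟨by
    rw [index_prod, index_bot]
    exact mul_ne_zero FiniteIndex.index_ne_zero (FiniteIndex.index_ne_zero (H := H0))⟩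
  haveI : IsFreeGroup K0 := IsFreeGroup.ofMulEquiv
    ((MulEquiv.prodUnique (M := F0) (N := (⊥ : Subgroup (H ⧸ H0)))).symm.trans
      (prodEquiv F0 ⊥).symm)
  obtain ⟨τ, hτ⟩ := exists_coarse K0
  have h1 := base_fng hτ (fun a => f (φ a))
  rw [R_quot, hker] at h1
  haveI : ((⊤ : Subgroup F).prod H0).FiniteIndex := ⟨by
    rw [index_prod, index_top, one_mul]; exact FiniteIndex.index_ne_zero⟩
  have := chain_fng φ ((⊥ : Subgroup F).prod H0) ((⊤ : Subgroup F).prod H0)
    (prod_mono bot_le le_rfl) (fun i => (⊥ : Subgroup F).prod (H0.lowerCentralSeries i))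
    (fun i => by haveI := lcs_normal H0 i; infer_instance) rfl
    (fun i => prod_mono le_rfl (H0.lowerCentralSeries_antitone (Nat.le_succ i)))
    (fun i => by rw [commutator_prod_prod, commutator_bot_left, Subgroup.lowerCentralSeries_succ]) h1 c
  rwa [hc, bot_prod_bot] at this

end Rel

end Pool.Agent.H.MP_62749c_al
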