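import Mathlib

namespace Pool.Agent.H.MP_62749c_al

/-- the relators `u * v⁻¹` of the group presentation with relations `u = v`, `(u, v) ∈ ρ` -/
def relators {A : Type} (ρ : Set (FreeSemigroup A × FreeSemigroup A)) : Set (FreeGroup A) :=
  {r | ∃ p ∈ ρ, r = FreeSemigroup.lift FreeGroup.of p.1 * (FreeSemigroup.lift FreeGroup.of p.2)⁻¹}

/-- `S` has a finite Malcev presentation -/
def HasFiniteMalcev {M : Type*} [Semigroup M] (S : Subsemigroup M) : Prop :=
  ∃ (n : ℕ) (φ : Fin n → M) (ρ : Set (FreeSemigroup (Fin n) × FreeSemigroup (Fin n))),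
    Subsemigroup.closure (Set.range φ) = S ∧ ρ.Finite ∧
    ∀ u v : FreeSemigroup (Fin n), FreeSemigroup.lift φ u = FreeSemigroup.lift φ v ↔
      FreeSemigroup.lift (PresentedGroup.of (rels := relators ρ)) u =
        FreeSemigroup.lift (PresentedGroup.of (rels := relators ρ)) v

/-- every finitely generated subsemigroup has a finite Malcev presentation -/
def MalcevCoherent (M : Type*) [Semigroup M] : Prop :=
  ∀ T : Set M, T.Finite → HasFiniteMalcev (Subsemigroup.closure T)

end Pool.Agent.H.MP_62749c_al
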