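import Pool.Agent.H.MP_62749c_al.Core
import Pool.Agent.H.MP_62749c_al.Defs

set_option maxHeartbeats 400000

namespace Pool.Agent.H.MP_62749c_al

open Subgroup

/-- letters of a semigroup word -/
def wd {A : Type*} (u : FreeSemigroup A) : List A := u.head :: u.tail

theorem wd_mul {A : Type*} (u v : FreeSemigroup A) : wd (u * v) = wd u ++ wd v := rfl

theorem lift_eq_prod {A M : Type*} [Monoid M] (φ : A → M) (u : FreeSemigroup A) :
    FreeSemigroup.lift φ u = ((wd u).map φ).prod := by
  induction u using FreeSemigroup.recOnMul with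
  | ih1 x => simp [wd]
  | ih2 x y h1 h2 => rw [map_mul, h1, h2, wd_mul]; simp

theorem lift_eq_val {A M : Type*} [Group M] (φ : A → M) (u : FreeSemigroup A) :
    FreeSemigroup.lift φ u = val φ (wd u) := lift_eq_prod φ u

theorem exists_wd {A : Type*} (l : List A) (a : A) : ∃ w : FreeSemigroup A, wd w = l ++ [a] := by
  cases l with
  | nil => exact ⟨⟨a, []⟩, rfl⟩
  | cons b l => exact ⟨⟨b, l ++ [a]⟩, rfl⟩

theorem pres_iff {A : Type} (ρ : Set (FreeSemigroup A × FreeSemigroup A)) (u v : FreeSemigroup A) :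
    FreeSemigroup.lift (PresentedGroup.of (rels := relators ρ)) u =
        FreeSemigroup.lift (PresentedGroup.of (rels := relators ρ)) v ↔
      pos (wd u) * (pos (wd v))⁻¹ ∈ normalClosure (relators ρ) := by
  have : ∀ w : FreeSemigroup A, FreeSemigroup.lift (PresentedGroup.of (rels := relators ρ)) w =
      PresentedGroup.mk (relators ρ) (pos (wd w)) := by
    intro w
    rw [lift_eq_val, pos, map_val]; rfl
  rw [this, this, ← mul_inv_eq_one, ← map_inv, ← map_mul, PresentedGroup.mk_eq_one_iff]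

theorem coherent_of_fng {M Γ : Type*} [Monoid M] [Group Γ] (j : M →* Γ)
    (hj : Function.Injective j)
    (h : ∀ (n : ℕ) (φ : Fin n → M), (R (fun a => j (φ a)) ⊥).IsFinitelyNormallyGenerated) :
    MalcevCoherent M := by
  intro T hT
  obtain ⟨n, φ, -, rfl⟩ := hT.fin_param
  have hjv : ∀ w : FreeSemigroup (Fin n),
      j (FreeSemigroup.lift φ w) = val (fun a => j (φ a)) (wd w) := by
    intro w
    rw [lift_eq_prod, map_list_prod, List.map_map]; rfl
  obtain ⟨Y, hY, hYf, hYR⟩ := compact' (h n φ)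
  have : ∀ y ∈ Y, y ≠ 1 → ∃ p : FreeSemigroup (Fin n) × FreeSemigroup (Fin n),
      y = FreeSemigroup.lift FreeGroup.of p.1 * (FreeSemigroup.lift FreeGroup.of p.2)⁻¹ := by
    intro y hy h1
    obtain ⟨u, v, -, rfl⟩ := hY hy
    have : Nonempty (Fin n) := by
      by_contra hn
      rw [not_nonempty_iff] at hn
      exact h1 (by rw [Subsingleton.elim u v]; simp)
    obtain ⟨a⟩ := this
    obtain ⟨w1, h1⟩ := exists_wd u a
    obtain ⟨w2, h2⟩ := exists_wd v a
    refine ⟨(w1, w2), ?_⟩
    simp only [lift_eq_val, h1, h2, val_append, pos]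
    group
  choose f hf using this
  haveI : Finite {y // y ∈ Y ∧ y ≠ 1} := (hYf.subset fun y hy => hy.1 : Set.Finite {y | y ∈ Y ∧ y ≠ 1})
  let ρ := Set.range fun y : {y // y ∈ Y ∧ y ≠ 1} => f y y.2.1 y.2.2
  have hρ : normalClosure (relators ρ) = R (fun a => j (φ a)) ⊥ := by
    rw [R, ← hYR]
    refine le_antisymm (normalClosure_mono ?_) (normalClosure_le_normal fun y hy => ?_)
    · rintro _ ⟨_, ⟨y, rfl⟩, rfl⟩
      rw [← hf y y.2.1 y.2.2]; exact y.2.1
    · by_cases h1 : y = 1
      · rw [h1]; exact one_mem _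
      · exact subset_normalClosure ⟨_, ⟨⟨y, hy, h1⟩, rfl⟩, hf y hy h1⟩
  refine ⟨n, φ, ρ, rfl, Set.finite_range _, fun u v => ?_⟩
  rw [pres_iff, hρ, ← hj.eq_iff, hjv, hjv]
  constructor
  · intro e
    exact subset_normalClosure ⟨wd u, wd v, by simp [e], rfl⟩
  · intro e
    have := R_le _ ⊥ e
    simpa [mul_inv_eq_one] using this

end Pool.Agent.H.MP_62749c_al
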