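import Mathlib

set_option maxHeartbeats 400000

namespace Pool.Agent.H.MP_62749c_al

open FreeGroup

section Tree
variable {ι : Type*} [DecidableEq ι]

/-- common initial length -/
def cp {β : Type*} [DecidableEq β] : List β → List β → ℕ
  | a :: l, b :: m => if a = b then cp l m + 1 else 0
  | _, _ => 0

theorem cp_ultra {β : Type*} [DecidableEq β] :
    ∀ (x y z : List β), min (cp x y) (cp y z) ≤ cp x z
  | [], _, _ => by simp [cp]
  | _ :: _, [], _ => by simp [cp]
  | _ :: _, _ :: _, [] => by simp [cp]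
  | a :: x, b :: y, c :: z => by
    have := cp_ultra x y z
    by_cases h : a = b
    · by_cases h' : b = c
      · subst h; subst h'; simp only [cp, if_true]; omega
      · simp [cp, h']
    · simp [cp, h]

theorem isReduced_invRev {L : List (ι × Bool)} (h : IsReduced L) : IsReduced (invRev L) := by
  rw [isReduced_iff_reduce_eq] at h ⊢
  rw [reduce_invRev, h]

theorem norm_mk_of {L : List (ι × Bool)} (h : IsReduced L) : norm (mk L) = L.length := by
  rw [FreeGroup.norm, toWord_mk, h.reduce_eq]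

theorem norm_cp : ∀ (L M : List (ι × Bool)), IsReduced L → IsReduced M →
    norm ((mk L)⁻¹ * mk M) + 2 * cp L M = L.length + M.length
  | [], M, _, hM => by
    have : mk ([] : List (ι × Bool)) = 1 := rfl
    simp [cp, this, norm_mk_of hM]
  | a :: L, [], hL, _ => by
    have : mk ([] : List (ι × Bool)) = 1 := rfl
    rw [this, mul_one, norm_inv_eq, norm_mk_of hL]
    simp [cp]
  | a :: L, b :: M, hL, hM => by
    by_cases h : a = b
    · subst h
      have := norm_cp L M (List.IsChain.tail hL) (List.IsChain.tail hM)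
      have e : (mk (a :: L))⁻¹ * mk (a :: M) = (mk L)⁻¹ * mk M := by
        have e1 : mk (a :: L) = mk [a] * mk L := by rw [mul_mk]; rfl
        have e2 : mk (a :: M) = mk [a] * mk M := by rw [mul_mk]; rfl
        rw [e1, e2]; group
      rw [e]
      simp only [cp, if_true, List.length_cons]
      omega
    · have hr : IsReduced (invRev (a :: L) ++ b :: M) := by
        have h1 := isReduced_invRev hL
        rw [invRev_cons] at h1 ⊢
        have e : invRev [a] = [(a.1, !a.2)] := by simp [invRev]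
        rw [e] at h1 ⊢
        refine IsReduced.append_overlap h1 ?_ (by simp)
        rw [List.singleton_append, isReduced_cons_cons]
        refine ⟨fun h2 => ?_, hM⟩
        rcases a with ⟨a1, a2⟩
        rcases b with ⟨b1, b2⟩
        simp only at h2 ⊢
        subst h2
        cases a2 <;> cases b2 <;> simp_all
      rw [inv_mk, mul_mk, norm_mk_of hr]
      simp [cp, h]

theorem norm_gp (x y : FreeGroup ι) :
    norm (x⁻¹ * y) + 2 * cp x.toWord y.toWord = norm x + norm y := by
  have := norm_cp x.toWord y.toWord isReduced_toWord isReduced_toWord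
  rwa [mk_toWord, mk_toWord] at this

theorem split (C n : ℕ) (x : ℕ → FreeGroup ι) (h0 : x 0 = 1)
    (hs : ∀ t < n, norm ((x t)⁻¹ * x (t + 1)) ≤ C) (hn : norm (x n) ≤ C) (h2 : 2 ≤ n) :
    ∃ m, 0 < m ∧ m < n ∧ norm (x m) ≤ C ∧ norm ((x m)⁻¹ * x n) ≤ C := by
  have h1 : norm (x 1) ≤ C := by simpa [h0] using hs 0 (by omega)
  set m := Nat.findGreatest (fun t => norm (x t) ≤ C) (n - 1) with hm
  have hm1 : 1 ≤ m := Nat.le_findGreatest (P := fun t => norm (x t) ≤ C) (by omega) h1
  have hm2 : m ≤ n - 1 := Nat.findGreatest_le _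
  have hm3 : norm (x m) ≤ C :=
    Nat.findGreatest_spec (P := fun t => norm (x t) ≤ C) (m := 1) (by omega) h1
  have hm4 : ∀ t, m < t → t ≤ n - 1 → C < norm (x t) := fun t h h' =>
    not_le.mp (Nat.findGreatest_is_greatest (P := fun t => norm (x t) ≤ C) h h')
  refine ⟨m, hm1, by omega, hm3, ?_⟩
  rcases eq_or_lt_of_le hm2 with he | hl
  · have := hs m (by omega)
    rwa [show m + 1 = n by omega] at this
  · have key : ∀ t, m + 1 ≤ t → t ≤ n - 1 →
        min (norm (x m) + 1) (C + 2) ≤ 2 * cp (x m).toWord (x t).toWord := by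
      intro t ht
      induction t, ht using Nat.le_induction with
      | base =>
        intro h
        have := norm_gp (x m) (x (m + 1))
        have := hs m (by omega)
        have := hm4 (m + 1) (by omega) h
        omega
      | succ t ht ih =>
        intro h
        have := ih (by omega)
        have := norm_gp (x t) (x (t + 1))
        have := hs t (by omega)
        have := hm4 t (by omega) (by omega)
        have := hm4 (t + 1) (by omega) h
        have := cp_ultra (x m).toWord (x t).toWord (x (t + 1)).toWord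
        omega
    have k1 := key (n - 1) (by omega) le_rfl
    have k2 := norm_gp (x (n - 1)) (x n)
    have k3 := hs (n - 1) (by omega)
    rw [show n - 1 + 1 = n by omega] at k3
    have k4 := hm4 (n - 1) hl le_rfl
    have k5 := cp_ultra (x m).toWord (x (n - 1)).toWord (x n).toWord
    have k6 := norm_gp (x m) (x n)
    omega

/-- elements written with letters from a set -/
def Supp (S : Set ι) : Subgroup (FreeGroup ι) where
  carrier := {x | ∀ a ∈ x.toWord, a.1 ∈ S}
  mul_mem' {x y} hx hy a ha := by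
    rcases List.mem_append.mp ((toWord_mul_sublist x y).subset ha) with h | h
    · exact hx a h
    · exact hy a h
  one_mem' a ha := by simp at ha
  inv_mem' {x} hx a ha := by
    rw [toWord_inv] at ha
    simp only [invRev, List.mem_reverse, List.mem_map] at ha
    obtain ⟨b, hb, rfl⟩ := ha
    exact hx b hb

theorem finite_lists {β : Type*} {S : Set β} (hS : S.Finite) (n : ℕ) :
    {l : List β | l.length ≤ n ∧ ∀ a ∈ l, a ∈ S}.Finite := by
  haveI := hS.to_subtype
  refine ((List.finite_length_le S n).image (List.map Subtype.val)).subset ?_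
  rintro l ⟨h1, h2⟩
  refine ⟨l.attachWith (· ∈ S) h2, by simpa using h1, by simp⟩

theorem finite_ball {S : Set ι} (hS : S.Finite) (C : ℕ) :
    {x : FreeGroup ι | norm x ≤ C ∧ x ∈ Supp S}.Finite := by
  refine Set.Finite.of_finite_image ?_ toWord_injective.injOn
  refine (finite_lists (hS.prod (Set.finite_univ (α := Bool))) C).subset ?_
  rintro _ ⟨x, ⟨h1, h2⟩, rfl⟩
  exact ⟨h1, fun a ha => ⟨h2 a ha, trivial⟩⟩

theorem exists_bound {Y : Set (FreeGroup ι)} (hY : Y.Finite) :
    ∃ (C : ℕ) (S : Set ι), S.Finite ∧ ∀ y ∈ Y, norm y ≤ C ∧ y ∈ Supp S := by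
  obtain ⟨C, hC⟩ := (hY.image FreeGroup.norm).bddAbove
  refine ⟨C, ⋃ y ∈ Y, Prod.fst '' {a | a ∈ y.toWord},
    hY.biUnion fun y _ => (List.finite_toSet _).image _, fun y hy => ⟨hC ⟨y, hy, rfl⟩, ?_⟩⟩
  intro a ha
  exact Set.mem_biUnion hy ⟨a, ha, rfl⟩

end Tree

section Pump
variable {K β : Type*} [Group K]

/-- value of a word -/
def val (ψ : β → K) (l : List β) : K := (l.map ψ).prod

@[simp] theorem val_nil (ψ : β → K) : val ψ [] = 1 := rfl
@[simp] theorem val_append (ψ : β → K) (l m : List β) : val ψ (l ++ m) = val ψ l * val ψ m := by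
  simp [val]
@[simp] theorem val_cons (ψ : β → K) (a : β) (m : List β) : val ψ (a :: m) = ψ a * val ψ m := by
  simp [val]

/-- proper factor -/
def Sub (γ' γ : List β) : Prop := ∃ b d, γ = b ++ γ' ++ d ∧ γ'.length < γ.length

theorem Sub.trans {a b c : List β} (h : Sub a b) (h' : Sub b c) : Sub a c := by
  obtain ⟨p, q, h1, h2⟩ := h
  obtain ⟨r, s, h3, h4⟩ := h'
  exact ⟨r ++ p, q ++ s, by rw [h3, h1]; simp, h2.trans h4⟩

/-- a coarse map of a group to a tree -/
structure Coarse {ι : Type*} (τ : K → FreeGroup ι) : Prop where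
  step : ∀ k : K, {x | ∃ g, (τ g)⁻¹ * τ (g * k) = x}.Finite
  fib : ∀ x, {k : K | ∃ g, (τ g)⁻¹ * τ (g * k) = x}.Finite

theorem exists_chain {ι : Type*} {τ : K → FreeGroup ι} (hτ : Coarse τ) [Finite β] (ψ : β → K) :
    ∃ B : Set K, B.Finite ∧ ∀ (n : ℕ) (γ : List β), val ψ γ = 1 → 2 ^ n ≤ γ.length →
      ∃ s : ℕ → List β, s 0 = γ ∧ (∀ i < n, Sub (s (i + 1)) (s i)) ∧
        ∀ i ≤ n, val ψ (s i) ∈ B := by
  classical
  obtain ⟨C, S, hS, hC⟩ := exists_bound (Set.finite_iUnion fun b : β => hτ.step (ψ b))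
  have hst : ∀ g b, norm ((τ g)⁻¹ * τ (g * ψ b)) ≤ C ∧ (τ g)⁻¹ * τ (g * ψ b) ∈ Supp S :=
    fun g b => hC _ (Set.mem_iUnion.mpr ⟨b, g, rfl⟩)
  have hsupp : ∀ (γ : List β) g, (τ g)⁻¹ * τ (g * val ψ γ) ∈ Supp S := by
    intro γ
    induction γ with
    | nil => intro g; simp
    | cons b γ ih =>
      intro g
      have := mul_mem (hst g b).2 (ih (g * ψ b))
      simpa [mul_assoc] using this
  refine ⟨⋃ x ∈ {x : FreeGroup ι | norm x ≤ C ∧ x ∈ Supp S},
    {k : K | ∃ g, (τ g)⁻¹ * τ (g * k) = x}, (finite_ball hS C).biUnion fun x _ => hτ.fib x, ?_⟩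
  suffices h : ∀ (n : ℕ) (γ : List β) (g : K), norm ((τ g)⁻¹ * τ (g * val ψ γ)) ≤ C →
      2 ^ n ≤ γ.length → ∃ s : ℕ → List β, s 0 = γ ∧ (∀ i < n, Sub (s (i + 1)) (s i)) ∧
        ∀ i ≤ n, ∃ g, norm ((τ g)⁻¹ * τ (g * val ψ (s i))) ≤ C by
    intro n γ h1 h2
    obtain ⟨s, s0, s1, s2⟩ := h n γ 1 (by simp [h1]) h2
    refine ⟨s, s0, s1, fun i hi => ?_⟩
    obtain ⟨g, hg⟩ := s2 i hi
    exact Set.mem_biUnion (x := (τ g)⁻¹ * τ (g * val ψ (s i))) ⟨hg, hsupp _ _⟩ ⟨g, rfl⟩
  intro n
  induction n with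
  | zero =>
    intro γ g h1 _
    exact ⟨fun _ => γ, rfl, fun i hi => by omega, fun i _ => ⟨g, h1⟩⟩
  | succ n ih =>
    intro γ g h1 h2
    have hp : 1 ≤ 2 ^ n := Nat.one_le_two_pow
    rw [pow_succ] at h2
    obtain ⟨m, m0, m1, m2, m3⟩ := split C γ.length
      (fun t => (τ g)⁻¹ * τ (g * val ψ (γ.take t))) (by simp) (fun t ht => by
        have := (hst (g * val ψ (γ.take t)) γ[t]).1
        have e : val ψ (γ.take (t + 1)) = val ψ (γ.take t) * ψ γ[t] := by
          rw [List.take_succ_eq_append_getElem ht, val_append, val_cons, val_nil, mul_one]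
        simpa [mul_assoc, e] using this) (by simpa using h1) (by omega)
    have m4 : norm ((τ (g * val ψ (γ.take m)))⁻¹ *
        τ (g * val ψ (γ.take m) * val ψ (γ.drop m))) ≤ C := by
      rw [mul_assoc g, ← val_append, List.take_append_drop]
      simpa [mul_assoc] using m3
    have : ∃ γ' g', Sub γ' γ ∧ norm ((τ g')⁻¹ * τ (g' * val ψ γ')) ≤ C ∧ 2 ^ n ≤ γ'.length := by
      by_cases hm : 2 ^ n ≤ m
      · exact ⟨γ.take m, g, ⟨[], γ.drop m, by simp, by simp; omega⟩, m2, by simp; omega⟩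
      · exact ⟨γ.drop m, _, ⟨γ.take m, [], by simp, by simp; omega⟩, m4, by simp; omega⟩
    obtain ⟨γ', g', k1, k2, k3⟩ := this
    obtain ⟨s, s0, s1, s2⟩ := ih γ' g' k2 k3
    refine ⟨fun i => Nat.casesOn i γ s, rfl, fun i hi => ?_, fun i hi => ?_⟩
    · cases i with
      | zero => simpa [s0] using k1
      | succ i => exact s1 i (by omega)
    · cases i with
      | zero => exact ⟨g, h1⟩
      | succ i => exact s2 i (by omega)

theorem exists_pump {ι : Type*} {τ : K → FreeGroup ι} (hτ : Coarse τ) [Finite β] (ψ : β → K) :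
    ∃ N : ℕ, ∀ γ : List β, val ψ γ = 1 → N ≤ γ.length →
      ∃ p q x y z : List β, γ = p ++ x ++ q ∧ Sub y x ∧ Sub z y ∧
        val ψ y = val ψ x ∧ val ψ z = val ψ x := by
  classical
  obtain ⟨B, hB, h⟩ := exists_chain hτ ψ
  refine ⟨2 ^ (2 * hB.toFinset.card), fun γ h1 h2 => ?_⟩
  obtain ⟨s, s0, s1, s2⟩ := h _ γ h1 h2
  set n := 2 * hB.toFinset.card with hn
  have hsub : ∀ i j, i < j → j ≤ n → Sub (s j) (s i) := by
    intro i j hij
    induction j, hij using Nat.le_induction with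
    | base => intro h; exact s1 i (by omega)
    | succ j hj ih => intro h; exact (s1 j (by omega)).trans (ih (by omega))
  obtain ⟨y, -, hy⟩ := Finset.exists_lt_card_fiber_of_mul_lt_card_of_maps_to
    (s := Finset.range (n + 1)) (t := hB.toFinset) (f := fun i => val ψ (s i)) (n := 2)
    (fun i hi => by simpa using s2 i (by simpa [Nat.lt_succ_iff] using hi))
    (by simp; omega)
  obtain ⟨a, b, c, ha, hb, hc, hab, hac, hbc⟩ := Finset.two_lt_card_iff.mp hy
  simp only [Finset.mem_filter, Finset.mem_range] at ha hb hc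
  have fin : ∀ a b c, a < b → b < c → c < n + 1 → val ψ (s a) = y → val ψ (s b) = y →
      val ψ (s c) = y → ∃ p q x y z : List β, γ = p ++ x ++ q ∧ Sub y x ∧ Sub z y ∧
        val ψ y = val ψ x ∧ val ψ z = val ψ x := by
    intro a b c h1 h2 h3 e1 e2 e3
    have : ∃ p q, γ = p ++ s a ++ q := by
      rcases Nat.eq_zero_or_pos a with rfl | h0
      · exact ⟨[], [], by simp [s0]⟩
      · obtain ⟨p, q, h, -⟩ := hsub 0 a h0 (by omega)
        exact ⟨p, q, by rw [← s0, h]⟩
    obtain ⟨p, q, h⟩ := this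
    exact ⟨p, q, s a, s b, s c, h, hsub a b h1 (by omega), hsub b c h2 (by omega),
      e2.trans e1.symm, e3.trans e1.symm⟩
  rcases lt_or_gt_of_ne hab with h1 | h1 <;> rcases lt_or_gt_of_ne hac with h2 | h2 <;>
    rcases lt_or_gt_of_ne hbc with h3 | h3
  · exact fin a b c h1 h3 hc.1 ha.2 hb.2 hc.2
  · exact fin a c b h2 h3 hb.1 ha.2 hc.2 hb.2
  · omega
  · exact fin c a b h2 h1 hb.1 hc.2 ha.2 hb.2
  · exact fin b a c h1 h2 hc.1 hb.2 ha.2 hc.2
  · omega
  · exact fin b c a h3 h2 ha.1 hb.2 hc.2 ha.2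
  · exact fin c b a h3 h1 ha.1 hc.2 hb.2 ha.2

theorem exists_coarse (F0 : Subgroup K) [F0.FiniteIndex] [IsFreeGroup F0] :
    ∃ τ : K → FreeGroup (IsFreeGroup.Generators F0), Coarse τ := by
  let o : K → K := fun g => ((g⁻¹ : K) : K ⧸ F0).out
  have ho : ∀ g, g * o g ∈ F0 := fun g => by
    have := QuotientGroup.eq.mp (QuotientGroup.out_eq' ((g⁻¹ : K) : K ⧸ F0)).symm
    simpa using this
  have hfin : (Set.range (Quotient.out : K ⧸ F0 → K)).Finite :=
    @Set.finite_range _ (K ⧸ F0) _ inferInstance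
  let e := IsFreeGroup.toFreeGroup F0
  refine ⟨fun g => e ⟨g * o g, ho g⟩, fun k => ?_, fun x => ?_⟩
  · have h1 : ((fun p : K × K => p.1⁻¹ * k * p.2) '' (Set.range (Quotient.out : K ⧸ F0 → K) ×ˢ
        Set.range (Quotient.out : K ⧸ F0 → K))).Finite := (hfin.prod hfin).image _
    refine ((h1.preimage (f := fun y : F0 => (y : K)) Subtype.val_injective.injOn).image
      e).subset ?_
    rintro _ ⟨g, rfl⟩
    refine ⟨(⟨g * o g, ho g⟩ : F0)⁻¹ * ⟨g * k * o (g * k), ho _⟩,
      ⟨(o g, o (g * k)), ⟨⟨_, rfl⟩, ⟨_, rfl⟩⟩, ?_⟩, by simp⟩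
    simp [mul_assoc]
  · refine ((hfin.prod hfin).image
      (fun p : K × K => p.1 * (e.symm x : K) * p.2⁻¹)).subset ?_
    rintro k ⟨g, rfl⟩
    refine ⟨(o g, o (g * k)), ⟨⟨_, rfl⟩, ⟨_, rfl⟩⟩, ?_⟩
    simp only [← _root_.map_inv, ← _root_.map_mul, MulEquiv.symm_apply_apply]
    simp [mul_assoc]

end Pump

end Pool.Agent.H.MP_62749c_al
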